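import Mathlib
import Pool.Prelude.Def_F_1001536c

set_option autoImplicit false

namespace Pool.Agent.Results.MP_0b8466_co.NearLinear

open Finset

/-- maximal cliques, unfolded -/
def MC {V : Type} (G : SimpleGraph V) (M : Finset V) : Prop :=
  (∀ x ∈ M, ∀ y ∈ M, x ≠ y → G.Adj x y) ∧ ∀ z, z ∉ M → ∃ x ∈ M, ¬ G.Adj z x

/-- all maximal cliques have at least `m` vertices, and no set of at most `s` vertices meets them all -/
def Good {V : Type} (G : SimpleGraph V) (m s : ℕ) : Prop :=
  (∀ M, MC G M → m ≤ M.card) ∧ ∀ T : Finset V, T.card ≤ s → ∃ M, MC G M ∧ ∀ x ∈ M, x ∉ T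

lemma MC_iff {V : Type} (G : SimpleGraph V) (M : Finset V) :
    MC G M ↔ Maximal (fun T : Finset V => G.IsClique (T : Set V)) M := by
  classical
  constructor
  · rintro ⟨h1, h2⟩
    refine ⟨?_, ?_⟩
    · intro x hx y hy hxy
      exact h1 x (by exact_mod_cast hx) y (by exact_mod_cast hy) hxy
    · intro N hN hMN z hz
      by_contra hzM
      obtain ⟨x, hx, hzx⟩ := h2 z hzM
      apply hzx
      apply hN (by exact_mod_cast hz) (by exact_mod_cast hMN hx)
      rintro rfl
      exact hzM hx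
  · rintro ⟨h1, h2⟩
    refine ⟨?_, ?_⟩
    · intro x hx y hy hxy
      exact h1 (by exact_mod_cast hx) (by exact_mod_cast hy) hxy
    · intro z hz
      by_contra hcon
      push Not at hcon
      apply hz
      have h3 : G.IsClique ((insert z M : Finset V) : Set V) := by
        rw [Finset.coe_insert, SimpleGraph.isClique_insert]
        exact ⟨h1, fun b hb _ => hcon b (by exact_mod_cast hb)⟩
      exact h2 h3 (Finset.subset_insert z M) (Finset.mem_insert_self z M)

section step
variable {V : Type} (G : SimpleGraph V) (R A k s : ℕ)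

/-- vertices of the next graph: `R * A` copies of `V`, in `A` groups, and `k` classes of `A * (s + 1)` selectors -/
abbrev NV (V : Type) (R A k s : ℕ) : Type :=
  ((Fin R × Fin A) × V) ⊕ (Fin k × (Fin A × Fin (s + 1)))

/-- adjacency of the next graph -/
def stepAdj : NV V R A k s → NV V R A k s → Prop
  | Sum.inl x, Sum.inl y => x.1 ≠ y.1 ∨ G.Adj x.2 y.2
  | Sum.inl x, Sum.inr t => x.1.2 ≠ t.2.1
  | Sum.inr t, Sum.inl x => x.1.2 ≠ t.2.1
  | Sum.inr t, Sum.inr u => t.1 ≠ u.1

/-- the next graph -/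
def stepG : SimpleGraph (NV V R A k s) where
  Adj := stepAdj G R A k s
  symm := ⟨by
    rintro (x | t) (y | u) h
    · rcases h with h | h
      · exact Or.inl h.symm
      · exact Or.inr h.symm
    · exact h
    · exact h
    · exact fun e => h e.symm⟩
  loopless := ⟨by
    rintro (x | t) h
    · rcases h with h | h
      · exact h rfl
      · exact G.loopless.irrefl _ h
    · exact h rfl⟩

lemma step_lower {m : ℕ} (hG : ∀ M, MC G M → m ≤ M.card) (M : Finset (NV V R A k s))
    (hM : MC (stepG G R A k s) M) : R * (A - k) * m ≤ M.card := by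
  classical
  obtain ⟨h1, h2⟩ := hM
  -- selectors in M
  set Mt := M.toRight with hMt
  have hinj : Set.InjOn (fun t : Fin k × (Fin A × Fin (s + 1)) => t.1) (Mt : Set _) := by
    intro t ht u hu htu
    by_contra hne
    have ht' : (Sum.inr t : NV V R A k s) ∈ M := by
      simpa [hMt] using ht
    have hu' : (Sum.inr u : NV V R A k s) ∈ M := by
      simpa [hMt] using hu
    exact (h1 _ ht' _ hu' (fun e => hne (Sum.inr.inj e))) htu
  have hMtk : Mt.card ≤ k := by
    have := Finset.card_le_card_of_injOn (s := Mt) (t := (Finset.univ : Finset (Fin k)))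
      (fun t => t.1) (fun _ _ => Finset.mem_coe.2 (Finset.mem_univ _)) hinj
    simpa using this
  set K : Finset (Fin A) := Mt.image (fun t => t.2.1) with hK
  have hKk : K.card ≤ k := Finset.card_image_le.trans hMtk
  let Mb : Fin R × Fin A → Finset V := fun b => (M.toLeft.filter (fun p => p.1 = b)).image Prod.snd
  have hmem : ∀ b v, v ∈ Mb b ↔ (Sum.inl (b, v) : NV V R A k s) ∈ M := by
    intro b v
    simp only [Mb, Finset.mem_image, Finset.mem_filter, Finset.mem_toLeft]
    constructor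
    · rintro ⟨⟨b', v'⟩, ⟨h, rfl⟩, rfl⟩
      exact h
    · intro h
      exact ⟨(b, v), ⟨h, rfl⟩, rfl⟩
  have hMb : ∀ b : Fin R × Fin A, b.2 ∉ K → m ≤ (Mb b).card := by
    intro b hb
    apply hG
    refine ⟨?_, ?_⟩
    · intro x hx y hy hxy
      rw [hmem] at hx hy
      rcases h1 _ hx _ hy (fun e => hxy (by
        have := Sum.inl.inj e
        exact (Prod.mk.inj this).2)) with h | h
      · exact absurd rfl h
      · exact h
    · intro z hz
      rw [hmem] at hz
      obtain ⟨x, hx, hzx⟩ := h2 _ hz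
      rcases x with ⟨b', v'⟩ | t
      · have h3 : ¬ (b ≠ b' ∨ G.Adj z v') := hzx
        push Not at h3
        obtain ⟨rfl, h4⟩ := h3
        exact ⟨v', (hmem _ _).2 hx, h4⟩
      · exfalso
        have h3 : ¬ (b.2 ≠ t.2.1) := hzx
        push Not at h3
        apply hb
        rw [h3, hK]
        exact Finset.mem_image.2 ⟨t, by simpa [hMt] using hx, rfl⟩
  have hcard : ((Finset.univ : Finset (Fin R)) ×ˢ Kᶜ).card = R * (A - K.card) := by
    rw [Finset.card_product, Finset.card_compl]
    simp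
  have hsig : (((Finset.univ : Finset (Fin R)) ×ˢ Kᶜ).sigma Mb).card ≤ M.card := by
    apply Finset.card_le_card_of_injOn (fun p => (Sum.inl (p.1, p.2) : NV V R A k s))
    · rintro ⟨b, v⟩ hp
      have hp' := Finset.mem_sigma.1 (Finset.mem_coe.1 hp)
      exact Finset.mem_coe.2 ((hmem b v).1 hp'.2)
    · rintro ⟨b, v⟩ _ ⟨b', v'⟩ _ h
      have h3 := Prod.mk.inj (Sum.inl.inj h)
      obtain ⟨h4, h5⟩ := h3
      subst h4
      subst h5
      rfl
  rw [Finset.card_sigma] at hsig
  have hsum : R * (A - K.card) * m ≤ ∑ b ∈ (Finset.univ : Finset (Fin R)) ×ˢ Kᶜ, (Mb b).card := by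
    rw [← hcard, ← smul_eq_mul, ← Finset.sum_const]
    apply Finset.sum_le_sum
    intro b hb
    apply hMb
    have := (Finset.mem_product.1 hb).2
    exact Finset.mem_compl.1 this
  calc R * (A - k) * m ≤ R * (A - K.card) * m := by
        apply Nat.mul_le_mul_right
        apply Nat.mul_le_mul_left
        omega
    _ ≤ _ := hsum
    _ ≤ _ := hsig

lemma step_avoid (hkA : k < A) (hG : ∀ T : Finset V, T.card ≤ s → ∃ M, MC G M ∧ ∀ x ∈ M, x ∉ T)
    [Fintype V] (T : Finset (NV V R A k s)) (hT : T.card ≤ k * (s + 1)) :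
    ∃ M, MC (stepG G R A k s) M ∧ ∀ x ∈ M, x ∉ T := by
  classical
  have hsplit := Finset.card_toLeft_add_card_toRight (u := T)
  -- overflowing groups
  set O : Finset (Fin A) := Finset.univ.filter
    (fun a => s + 1 ≤ (T.toLeft.filter (fun p => p.1.2 = a)).card) with hO
  have hOc : O.card * (s + 1) ≤ T.toLeft.card := by
    rw [Finset.card_eq_sum_card_fiberwise (f := fun p : (Fin R × Fin A) × V => p.1.2)
      (t := (Finset.univ : Finset (Fin A))) (fun _ _ => Finset.mem_coe.2 (Finset.mem_univ _))]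
    calc O.card * (s + 1) = ∑ a ∈ O, (s + 1) := by simp
      _ ≤ ∑ a ∈ O, (T.toLeft.filter (fun p => p.1.2 = a)).card := by
          apply Finset.sum_le_sum
          intro a ha
          exact (Finset.mem_filter.1 ha).2
      _ ≤ _ := Finset.sum_le_sum_of_subset (Finset.subset_univ _)
  -- full pairs
  set F : Finset (Fin k × Fin A) := Finset.univ.filter
    (fun q => ∀ c : Fin (s + 1), (q.1, (q.2, c)) ∈ T.toRight) with hF
  have hFc : F.card * (s + 1) ≤ T.toRight.card := by
    have : (F ×ˢ (Finset.univ : Finset (Fin (s + 1)))).card ≤ T.toRight.card := by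
      apply Finset.card_le_card_of_injOn (fun q => (q.1.1, (q.1.2, q.2)))
      · rintro ⟨⟨i, a⟩, c⟩ hq
        have := (Finset.mem_filter.1 (Finset.mem_product.1 (Finset.mem_coe.1 hq)).1).2
        exact Finset.mem_coe.2 (this c)
      · rintro ⟨⟨i, a⟩, c⟩ _ ⟨⟨i', a'⟩, c'⟩ _ h
        simp only [Prod.mk.injEq] at h
        obtain ⟨rfl, rfl, rfl⟩ := h
        rfl
    rw [Finset.card_product] at this
    simpa using this
  have hOF : O.card + F.card ≤ k := by
    have h3 : (O.card + F.card) * (s + 1) ≤ k * (s + 1) := by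
      calc (O.card + F.card) * (s + 1) = O.card * (s + 1) + F.card * (s + 1) := by ring
        _ ≤ T.toLeft.card + T.toRight.card := Nat.add_le_add hOc hFc
        _ = T.card := hsplit
        _ ≤ _ := hT
    exact Nat.le_of_mul_le_mul_right h3 (Nat.succ_pos s)
  -- distinct selectors classes for the overflowing groups
  obtain ⟨f, hf, hft⟩ : ∃ f : {a // a ∈ O} → Fin k, Function.Injective f ∧
      ∀ a, f a ∈ (Finset.univ.filter (fun i : Fin k => (i, a.1) ∉ F)) := by
    rw [← Finset.all_card_le_biUnion_card_iff_exists_injective]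
    intro S
    rcases S.eq_empty_or_nonempty with rfl | ⟨a, ha⟩
    · simp
    · have hS : S.card ≤ O.card := by
        calc S.card ≤ Fintype.card {a // a ∈ O} := Finset.card_le_univ S
          _ = O.card := by simp
      have h3 : k ≤ (Finset.univ.filter (fun i : Fin k => (i, a.1) ∉ F)).card + F.card := by
        have h4 := Finset.card_filter_add_card_filter_not (s := (Finset.univ : Finset (Fin k)))
          (fun i : Fin k => (i, a.1) ∉ F)
        have h5 : (Finset.univ.filter (fun i : Fin k => ¬ (i, a.1) ∉ F)).card ≤ F.card := by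
          apply Finset.card_le_card_of_injOn (fun i => (i, a.1))
          · intro i hi
            have := (Finset.mem_filter.1 (Finset.mem_coe.1 hi)).2
            exact Finset.mem_coe.2 (not_not.1 this)
          · intro i _ j _ h
            exact (Prod.mk.inj h).1
        have h6 : (Finset.univ : Finset (Fin k)).card = k := by simp
        omega
      calc S.card ≤ O.card := hS
        _ ≤ (Finset.univ.filter (fun i : Fin k => (i, a.1) ∉ F)).card := by omega
        _ ≤ _ := Finset.card_le_card (Finset.subset_biUnion_of_mem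
            (fun a : {a // a ∈ O} => Finset.univ.filter (fun i : Fin k => (i, a.1) ∉ F)) ha)
  -- the selectors
  have hsel : ∀ i : Fin k, ∃ p : Fin A × Fin (s + 1), (Sum.inr (i, p) : NV V R A k s) ∉ T ∧
      ∀ a : {a // a ∈ O}, f a = i → p.1 = a.1 := by
    intro i
    by_cases hi : ∃ a, f a = i
    · obtain ⟨a, rfl⟩ := hi
      have h3 := (Finset.mem_filter.1 (hft a)).2
      have h4 : ∃ c, (f a, (a.1, c)) ∉ T.toRight := by
        by_contra hcon
        push Not at hcon
        exact h3 (Finset.mem_filter.2 ⟨Finset.mem_univ _, hcon⟩)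
      obtain ⟨c, hc⟩ := h4
      refine ⟨(a.1, c), fun h => hc (Finset.mem_toRight.2 h), ?_⟩
      intro a' ha'
      rw [hf ha']
    · by_contra hcon
      push Not at hcon
      have h3 : ∀ p : Fin A × Fin (s + 1), (Sum.inr (i, p) : NV V R A k s) ∈ T := by
        intro p
        by_contra hp
        obtain ⟨a, ha, _⟩ := hcon p hp
        exact hi ⟨a, ha⟩
      have h4 : (Finset.univ : Finset (Fin A × Fin (s + 1))).card ≤ T.card := by
        apply Finset.card_le_card_of_injOn (fun p => (Sum.inr (i, p) : NV V R A k s))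
        · intro p _
          exact Finset.mem_coe.2 (h3 p)
        · intro p _ q _ h
          exact (Prod.mk.inj (Sum.inr.inj h)).2
      have h5 : (Finset.univ : Finset (Fin A × Fin (s + 1))).card = A * (s + 1) := by simp
      have h6 : k * (s + 1) < A * (s + 1) := Nat.mul_lt_mul_of_pos_right hkA (Nat.succ_pos s)
      omega
  choose ψ hψ1 hψ2 using hsel
  set K : Finset (Fin A) := Finset.univ.image (fun i => (ψ i).1) with hK
  have hOK : O ⊆ K := by
    intro a ha
    rw [hK]
    exact Finset.mem_image.2 ⟨f ⟨a, ha⟩, Finset.mem_univ _, hψ2 _ ⟨a, ha⟩ rfl⟩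
  have hblock : ∀ b : Fin R × Fin A, ∃ N : Finset V, b.2 ∉ K →
      MC G N ∧ ∀ x ∈ N, (Sum.inl (b, x) : NV V R A k s) ∉ T := by
    intro b
    by_cases hb : b.2 ∈ K
    · exact ⟨∅, fun h => absurd hb h⟩
    · have h3 : b.2 ∉ O := fun h => hb (hOK h)
      have h4 : (T.toLeft.filter (fun p => p.1.2 = b.2)).card ≤ s := by
        by_contra hcon
        exact h3 (Finset.mem_filter.2 ⟨Finset.mem_univ _, by omega⟩)
      obtain ⟨N, hN1, hN2⟩ := hG ((T.toLeft.filter (fun p => p.1 = b)).image Prod.snd) (by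
        refine Finset.card_image_le.trans (le_trans (Finset.card_le_card ?_) h4)
        intro p hp
        rw [Finset.mem_filter] at hp ⊢
        exact ⟨hp.1, by rw [hp.2]⟩)
      refine ⟨N, fun _ => ⟨hN1, ?_⟩⟩
      intro x hx hxT
      apply hN2 x hx
      exact Finset.mem_image.2 ⟨(b, x), Finset.mem_filter.2 ⟨Finset.mem_toLeft.2 hxT, rfl⟩, rfl⟩
  choose Mb hMb using hblock
  let P : NV V R A k s → Prop := fun x => match x with
    | Sum.inl x => x.1.2 ∉ K ∧ x.2 ∈ Mb x.1
    | Sum.inr t => t.2 = ψ t.1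
  refine ⟨Finset.univ.filter P, ⟨?_, ?_⟩, ?_⟩
  · rintro (⟨b, v⟩ | ⟨i, p⟩) hx (⟨b', v'⟩ | ⟨j, q⟩) hy hxy
    · have hx' : b.2 ∉ K ∧ v ∈ Mb b := (Finset.mem_filter.1 hx).2
      have hy' : b'.2 ∉ K ∧ v' ∈ Mb b' := (Finset.mem_filter.1 hy).2
      show b ≠ b' ∨ G.Adj v v'
      by_cases hb : b = b'
      · subst hb
        right
        exact (hMb b hx'.1).1.1 v hx'.2 v' hy'.2 (fun e => hxy (by rw [e]))
      · exact Or.inl hb
    · have hx' : b.2 ∉ K ∧ v ∈ Mb b := (Finset.mem_filter.1 hx).2
      have hy' : q = ψ j := (Finset.mem_filter.1 hy).2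
      show b.2 ≠ q.1
      intro e
      apply hx'.1
      rw [e, hy', hK]
      exact Finset.mem_image.2 ⟨j, Finset.mem_univ _, rfl⟩
    · have hx' : p = ψ i := (Finset.mem_filter.1 hx).2
      have hy' : b'.2 ∉ K ∧ v' ∈ Mb b' := (Finset.mem_filter.1 hy).2
      show b'.2 ≠ p.1
      intro e
      apply hy'.1
      rw [e, hx', hK]
      exact Finset.mem_image.2 ⟨i, Finset.mem_univ _, rfl⟩
    · have hx' : p = ψ i := (Finset.mem_filter.1 hx).2
      have hy' : q = ψ j := (Finset.mem_filter.1 hy).2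
      show i ≠ j
      rintro rfl
      apply hxy
      rw [hx', hy']
  · rintro (⟨b, v⟩ | ⟨i, p⟩) hz
    · by_cases hb : b.2 ∈ K
      · have hb' := hb
        rw [hK] at hb'
        obtain ⟨i, _, hi⟩ := Finset.mem_image.1 hb'
        refine ⟨Sum.inr (i, ψ i), Finset.mem_filter.2 ⟨Finset.mem_univ _, rfl⟩, ?_⟩
        show ¬ (b.2 ≠ (ψ i).1)
        rw [hi]
        exact fun h => h rfl
      · have hv : v ∉ Mb b := fun h => hz (Finset.mem_filter.2 ⟨Finset.mem_univ _, hb, h⟩)
        obtain ⟨x, hx, hvx⟩ := (hMb b hb).1.2 v hv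
        refine ⟨Sum.inl (b, x), Finset.mem_filter.2 ⟨Finset.mem_univ _, hb, hx⟩, ?_⟩
        show ¬ (b ≠ b ∨ G.Adj v x)
        rintro (h | h)
        · exact h rfl
        · exact hvx h
    · refine ⟨Sum.inr (i, ψ i), Finset.mem_filter.2 ⟨Finset.mem_univ _, rfl⟩, ?_⟩
      show ¬ (i ≠ i)
      exact fun h => h rfl
  · rintro (⟨b, v⟩ | ⟨i, p⟩) hx
    · have hx' : b.2 ∉ K ∧ v ∈ Mb b := (Finset.mem_filter.1 hx).2
      exact (hMb b hx'.1).2 v hx'.2
    · have hx' : p = ψ i := (Finset.mem_filter.1 hx).2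
      rw [hx']
      exact hψ1 i

end step

/-- replace every vertex by a clique of twins -/
def blowG {V W : Type} (G : SimpleGraph V) (f : W → V) : SimpleGraph W where
  Adj x y := x ≠ y ∧ (f x = f y ∨ G.Adj (f x) (f y))
  symm := ⟨by
    rintro x y ⟨h1, h2⟩
    refine ⟨h1.symm, ?_⟩
    rcases h2 with h | h
    · exact Or.inl h.symm
    · exact Or.inr h.symm⟩
  loopless := ⟨fun x h => h.1 rfl⟩

lemma blow_Good {V W : Type} [Fintype W] [DecidableEq V] (G : SimpleGraph V) (f : W → V) (q m s : ℕ)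
    (hq : 0 < q) (hf : ∀ v, q ≤ (Finset.univ.filter (fun w => f w = v)).card) (hG : Good G m s) :
    Good (blowG G f) (q * m) s := by
  classical
  refine ⟨?_, ?_⟩
  · intro M hM
    have htwin : ∀ x ∈ M, ∀ y, f y = f x → y ∈ M := by
      intro x hx y hxy
      by_contra hy
      obtain ⟨z, hz, hyz⟩ := hM.2 y hy
      apply hyz
      refine ⟨fun e => hy (e ▸ hz), ?_⟩
      by_cases hzx : z = x
      · subst hzx
        exact Or.inl hxy
      · rcases (hM.1 x hx z hz (fun e => hzx e.symm)).2 with h | h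
        · exact Or.inl (hxy.trans h)
        · rw [hxy]
          exact Or.inr h
    have hM' : MC G (M.image f) := by
      refine ⟨?_, ?_⟩
      · intro a ha b hb hab
        obtain ⟨x, hx, rfl⟩ := Finset.mem_image.1 ha
        obtain ⟨y, hy, rfl⟩ := Finset.mem_image.1 hb
        rcases (hM.1 x hx y hy (fun e => hab (by rw [e]))).2 with h | h
        · exact absurd h hab
        · exact h
      · intro z hz
        have h1 := hf z
        obtain ⟨w, hw⟩ := Finset.card_pos.1 (lt_of_lt_of_le hq h1)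
        have hw' : f w = z := (Finset.mem_filter.1 hw).2
        subst hw'
        have hwM : w ∉ M := fun h => hz (Finset.mem_image.2 ⟨w, h, rfl⟩)
        obtain ⟨x, hx, hwx⟩ := hM.2 w hwM
        refine ⟨f x, Finset.mem_image.2 ⟨x, hx, rfl⟩, fun h => hwx ⟨fun e => hwM (e ▸ hx), Or.inr h⟩⟩
    have h1 := hG.1 _ hM'
    rw [Finset.card_eq_sum_card_image f M]
    calc q * m ≤ q * (M.image f).card := Nat.mul_le_mul_left _ h1
      _ = ∑ b ∈ M.image f, q := by rw [Finset.sum_const, smul_eq_mul, mul_comm]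
      _ ≤ _ := by
        apply Finset.sum_le_sum
        intro b hb
        refine (hf b).trans (Finset.card_le_card ?_)
        intro w hw
        obtain ⟨x, hx, rfl⟩ := Finset.mem_image.1 hb
        have hw' := (Finset.mem_filter.1 hw).2
        exact Finset.mem_filter.2 ⟨htwin x hx w hw', hw'⟩
  · intro T hT
    obtain ⟨M, hM, hMT⟩ := hG.2 (T.image f) (Finset.card_image_le.trans hT)
    refine ⟨Finset.univ.filter (fun w => f w ∈ M), ⟨?_, ?_⟩, ?_⟩
    · intro x hx y hy hxy
      have hx' := (Finset.mem_filter.1 hx).2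
      have hy' := (Finset.mem_filter.1 hy).2
      refine ⟨hxy, ?_⟩
      by_cases h : f x = f y
      · exact Or.inl h
      · exact Or.inr (hM.1 _ hx' _ hy' h)
    · intro z hz
      have hz' : f z ∉ M := fun h => hz (Finset.mem_filter.2 ⟨Finset.mem_univ _, h⟩)
      obtain ⟨v, hv, hzv⟩ := hM.2 _ hz'
      obtain ⟨w, hw⟩ := Finset.card_pos.1 (lt_of_lt_of_le hq (hf v))
      have hw' : f w = v := (Finset.mem_filter.1 hw).2
      subst hw'
      refine ⟨w, Finset.mem_filter.2 ⟨Finset.mem_univ _, hv⟩, ?_⟩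
      rintro ⟨_, h | h⟩
      · exact hz' (h ▸ hv)
      · exact hzv h
    · intro x hx hxT
      exact hMT _ (Finset.mem_filter.1 hx).2 (Finset.mem_image.2 ⟨x, hxT, rfl⟩)

lemma blow_Fin {V : Type} [Fintype V] (G : SimpleGraph V) (m s n : ℕ) (hV : 0 < Fintype.card V)
    (hn : Fintype.card V ≤ n) (hG : Good G m s) :
    ∃ G' : SimpleGraph (Fin n), Good G' (n / Fintype.card V * m) s := by
  classical
  set N := Fintype.card V with hN
  let e : V ≃ Fin N := Fintype.equivFin V
  let f : Fin n → V := fun i => e.symm ⟨i.1 % N, Nat.mod_lt _ hV⟩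
  refine ⟨blowG G f, blow_Good G f _ m s (Nat.div_pos hn hV) ?_ hG⟩
  intro v
  have hlt : ∀ t : Fin (n / N), (e v).1 + N * t.1 < n := by
    intro t
    have h1 : (e v).1 < N := (e v).2
    have h2 : N * (t.1 + 1) ≤ N * (n / N) := Nat.mul_le_mul_left _ t.2
    have h3 : N * (n / N) ≤ n := Nat.mul_div_le n N
    have h4 : N * (t.1 + 1) = N * t.1 + N := by ring
    omega
  have h1 : (Finset.univ : Finset (Fin (n / N))).card ≤ (Finset.univ.filter (fun w => f w = v)).card := by
    apply Finset.card_le_card_of_injOn (fun t => (⟨(e v).1 + N * t.1, hlt t⟩ : Fin n))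
    · intro t _
      apply Finset.mem_coe.2
      apply Finset.mem_filter.2
      refine ⟨Finset.mem_univ _, ?_⟩
      show e.symm ⟨((e v).1 + N * t.1) % N, _⟩ = v
      rw [Equiv.symm_apply_eq]
      apply Fin.ext
      show ((e v).1 + N * t.1) % N = (e v).1
      rw [Nat.add_mul_mod_self_left, Nat.mod_eq_of_lt (e v).2]
    · intro t _ u _ h
      have h2 : (e v).1 + N * t.1 = (e v).1 + N * u.1 := congrArg Fin.val h
      have h3 : N * t.1 = N * u.1 := by omega
      exact Fin.ext (Nat.eq_of_mul_eq_mul_left hV h3)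
  simpa using h1

/-- existence of a good graph with `N` vertices -/
def Ex (N m s : ℕ) : Prop :=
  ∃ (V : Type) (_ : Fintype V) (G : SimpleGraph V), Fintype.card V = N ∧ Good G m s

lemma Ex_one : Ex 1 1 0 := by
  refine ⟨Unit, inferInstance, ⊥, by simp, ?_, ?_⟩
  · intro M hM
    rw [Nat.one_le_iff_ne_zero, Finset.card_ne_zero]
    by_contra hcon
    rw [Finset.not_nonempty_iff_eq_empty] at hcon
    subst hcon
    obtain ⟨x, hx, _⟩ := hM.2 () (by simp)
    simp at hx
  · intro T hT
    have hT' : T = ∅ := by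
      rw [← Finset.card_eq_zero]
      omega
    subst hT'
    refine ⟨{()}, ⟨?_, ?_⟩, by simp⟩
    · intro x _ y _ hxy
      exact absurd rfl hxy
    · intro z hz
      exact absurd (Finset.mem_singleton.2 rfl) hz

lemma Ex_step (N m s R A k : ℕ) (hk : k < A) (h : Ex N m s) :
    Ex (R * A * N + k * (A * (s + 1))) (R * (A - k) * m) (k * (s + 1)) := by
  classical
  obtain ⟨V, _, G, hV, hG1, hG2⟩ := h
  refine ⟨NV V R A k s, inferInstance, stepG G R A k s, ?_, ?_, ?_⟩
  · simp [NV, hV]
  · intro M hM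
    exact step_lower G R A k s hG1 M hM
  · intro T hT
    exact step_avoid G R A k s hk hG2 T hT

lemma Ex_iter (b k : ℕ) (hb : 1 ≤ b) (hk : 1 ≤ k) (l : ℕ) :
    ∃ N m s, Ex N m s ∧ 0 < N ∧ N ≤ ((b + 2) * k) ^ (l + 2) ∧ k ^ (l + 1) ≤ s ∧
      b ^ (l + 1) * N ≤ (b + 2) ^ (l + 1) * m ∧ (b + 1) * k * (s + 1) ≤ N := by
  have hkA : k < (b + 1) * k := by nlinarith
  have hsub : (b + 1) * k - k = b * k := by
    have : (b + 1) * k = b * k + k := by ring
    omega
  induction l with
  | zero =>
    have h1 := Ex_step 1 1 0 ((b + 1) * k) ((b + 1) * k) k hkA Ex_one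
    rw [hsub] at h1
    refine ⟨_, _, _, h1, ?_, ?_, ?_, ?_, ?_⟩
    · positivity
    · calc (b + 1) * k * ((b + 1) * k) * 1 + k * ((b + 1) * k * (0 + 1))
          = (b + 1) * ((b + 2) * (k * k)) := by ring
        _ ≤ (b + 2) * ((b + 2) * (k * k)) := Nat.mul_le_mul_right _ (by omega)
        _ = _ := by ring
    · simp
    · have : b ^ (0 + 1) * ((b + 1) * k * ((b + 1) * k) * 1 + k * ((b + 1) * k * (0 + 1))) =
          (b + 2) ^ (0 + 1) * ((b + 1) * k * (b * k) * 1) := by ring
      exact this.le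
    · nlinarith [Nat.mul_le_mul hk hk, Nat.mul_le_mul_left b (Nat.mul_le_mul hk hk),
        Nat.mul_le_mul_left (b*b) (Nat.mul_le_mul hk hk), Nat.mul_le_mul_left k hk,
        Nat.mul_le_mul_left (b * k) hk, Nat.mul_le_mul_left (b * b * k) hk]
  | succ l ih =>
    obtain ⟨N, m, s, h, hN, h1, h2, h3, h4⟩ := ih
    have h5 := Ex_step N m s 1 ((b + 1) * k) k hkA h
    rw [hsub] at h5
    have h6 : 1 * ((b + 1) * k) * N + k * ((b + 1) * k * (s + 1)) ≤ (b + 2) * k * N := by
      calc 1 * ((b + 1) * k) * N + k * ((b + 1) * k * (s + 1))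
          ≤ 1 * ((b + 1) * k) * N + k * N := Nat.add_le_add_left (Nat.mul_le_mul_left _ h4) _
        _ = (b + 2) * k * N := by ring
    refine ⟨_, _, _, h5, ?_, ?_, ?_, ?_, ?_⟩
    · positivity
    · calc _ ≤ (b + 2) * k * N := h6
        _ ≤ (b + 2) * k * ((b + 2) * k) ^ (l + 2) := Nat.mul_le_mul_left _ h1
        _ = _ := by ring
    · calc k ^ (l + 1 + 1) = k * k ^ (l + 1) := by ring
        _ ≤ k * (s + 1) := Nat.mul_le_mul_left _ (h2.trans (Nat.le_succ s))
    · calc b ^ (l + 1 + 1) * (1 * ((b + 1) * k) * N + k * ((b + 1) * k * (s + 1)))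
          ≤ b ^ (l + 1 + 1) * ((b + 2) * k * N) := Nat.mul_le_mul_left _ h6
        _ = b * k * (b + 2) * (b ^ (l + 1) * N) := by ring
        _ ≤ b * k * (b + 2) * ((b + 2) ^ (l + 1) * m) := Nat.mul_le_mul_left _ h3
        _ = (b + 2) ^ (l + 1 + 1) * (1 * (b * k) * m) := by ring
    · calc (b + 1) * k * (k * (s + 1) + 1) ≤ (b + 1) * k * (k * (s + 1) + N) := by
            apply Nat.mul_le_mul_left
            omega
        _ = _ := by ring

open Ndcfe74d8 in
lemma finalize (b k l n Q : ℕ) (hb : 1 ≤ b) (hk : 1 ≤ k)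
    (hn : Q * ((b + 2) * k) ^ (l + 2) ≤ n) (hQ : 1 ≤ Q) (c : ℝ)
    (hc : c ≤ (Q / (Q + 1)) * (b / (b + 2)) ^ (l + 1)) (h2 : 2 ≤ c * n) :
    ∃ G : SimpleGraph (Fin n), AllMaximalCliquesAtLeast G (c * (n : ℝ)) ∧
      k ^ (l + 1) < G.cliqueTransversalNumber := by
  classical
  obtain ⟨N, m, s, ⟨V, _, G, hV, hG⟩, hN, h1, h3, h4, _⟩ := Ex_iter b k hb hk l
  have hNn : Q * N ≤ n := (Nat.mul_le_mul_left Q h1).trans hn
  have hNn' : Fintype.card V ≤ n := by
    rw [hV]
    exact le_trans (Nat.le_mul_of_pos_left N hQ) hNn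
  obtain ⟨G', hG'⟩ := blow_Fin G m s n (by rw [hV]; exact hN) hNn' hG
  rw [hV] at hG'
  -- the density
  have hdens : c * (n : ℝ) ≤ ((n / N * m : ℕ) : ℝ) := by
    set q := n / N with hq
    have hqQ : Q ≤ q := by
      rw [hq, Nat.le_div_iff_mul_le hN]
      exact hNn
    have hnq : n < (q + 1) * N := by
      have h5 := Nat.div_add_mod n N
      have h6 := Nat.mod_lt n hN
      rw [← hq] at h5
      calc n = N * q + n % N := h5.symm
        _ < N * q + N := by omega
        _ = (q + 1) * N := by ring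
    have hNr : (0 : ℝ) < N := by exact_mod_cast hN
    have hbr : (0 : ℝ) < (b : ℝ) + 2 := by positivity
    have h5 : ((b : ℝ) / (b + 2)) ^ (l + 1) * N ≤ m := by
      rw [div_pow, div_mul_eq_mul_div, div_le_iff₀ (by positivity)]
      have h6 : ((b ^ (l + 1) * N : ℕ) : ℝ) ≤ (((b + 2) ^ (l + 1) * m : ℕ) : ℝ) := by
        exact_mod_cast h4
      push_cast at h6
      linarith
    have hρ0 : (0 : ℝ) ≤ ((b : ℝ) / (b + 2)) ^ (l + 1) := by positivity
    have h7 : (Q : ℝ) / (Q + 1) ≤ (q : ℝ) / (q + 1) := by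
      rw [div_le_div_iff₀ (by positivity) (by positivity)]
      have : (Q : ℝ) ≤ q := by exact_mod_cast hqQ
      nlinarith
    have h8 : (n : ℝ) ≤ (q + 1) * N := by
      have : ((n : ℕ) : ℝ) ≤ (((q + 1) * N : ℕ) : ℝ) := by exact_mod_cast hnq.le
      push_cast at this
      exact this
    calc c * (n : ℝ) ≤ (Q / (Q + 1)) * ((b : ℝ) / (b + 2)) ^ (l + 1) * n :=
          mul_le_mul_of_nonneg_right hc (by positivity)
      _ ≤ (q / (q + 1)) * ((b : ℝ) / (b + 2)) ^ (l + 1) * n := by
          apply mul_le_mul_of_nonneg_right _ (by positivity)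
          exact mul_le_mul_of_nonneg_right h7 hρ0
      _ ≤ (q / (q + 1)) * ((b : ℝ) / (b + 2)) ^ (l + 1) * ((q + 1) * N) := by
          apply mul_le_mul_of_nonneg_left h8 (by positivity)
      _ = q * (((b : ℝ) / (b + 2)) ^ (l + 1) * N) := by
          have : (q : ℝ) + 1 ≠ 0 := by positivity
          field_simp
      _ ≤ q * m := mul_le_mul_of_nonneg_left h5 (by positivity)
      _ = _ := by push_cast; rfl
  refine ⟨G', ?_, ?_⟩
  · rintro t ⟨S, hS, rfl⟩
    refine hdens.trans ?_
    exact_mod_cast hG'.1 S ((MC_iff G' S).2 hS)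
  · have hne : {k | ∃ T : Finset (Fin n), G'.IsCliqueTransversal T ∧ T.card = k}.Nonempty := by
      refine ⟨_, Finset.univ, ?_, rfl⟩
      intro S hS
      have : S.Nonempty := Finset.card_pos.1 (by have := hS.2; omega)
      obtain ⟨v, hv⟩ := this
      exact ⟨v, hv, Finset.mem_univ _⟩
    obtain ⟨T, hT, hTc⟩ := Nat.sInf_mem hne
    change T.card = G'.cliqueTransversalNumber at hTc
    rw [← hTc]
    by_contra hcon
    have h5 : T.card ≤ s := (not_lt.1 hcon).trans h3
    obtain ⟨M, hM, hMT⟩ := hG'.2 T h5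
    have h6 : 2 ≤ M.card := by
      have h7 := hG'.1 M hM
      have h8 : (2 : ℝ) ≤ (M.card : ℝ) := by
        refine h2.trans (hdens.trans ?_)
        exact_mod_cast h7
      exact_mod_cast h8
    obtain ⟨v, hv, hvT⟩ := hT M ⟨(MC_iff G' M).1 hM, h6⟩
    exact hMT v hv hvT

/-- the numerical choice of the parameters -/
lemma numeric (C : ℕ) (hC : 4 ≤ C) (z L u : ℝ) (hz : 10 ≤ z) (hz2 : 8 * Real.log (4 * C) ≤ z)
    (hL : L = Real.exp z) (hu : u = √(L / z)) (p : ℕ) (hp : p = ⌈u⌉₊) :
    4 ≤ u ∧ u * u * z = L ∧ u ≤ p ∧ (p : ℝ) ≤ 5 / 4 * u ∧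
      Real.log C + p * Real.log (2 * (C * p)) ≤ u * z := by
  have hC' : (4 : ℝ) ≤ C := by exact_mod_cast hC
  have hz0 : 0 < z := by linarith
  have hL0 : 0 < L := by rw [hL]; exact Real.exp_pos z
  have huu : u * u = L / z := by
    rw [hu]
    exact Real.mul_self_sqrt (by positivity)
  have hu0 : 0 ≤ u := by rw [hu]; exact Real.sqrt_nonneg _
  have h1 : 16 * z ≤ L := by
    have h2 := Real.pow_div_factorial_le_exp z hz0.le 3
    rw [← hL] at h2
    have h3 : (Nat.factorial 3 : ℝ) = 6 := by norm_num [Nat.factorial]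
    rw [h3] at h2
    have h4 : 16 * z ≤ z ^ 3 / 6 := by
      have : z ^ 3 / 6 - 16 * z = z * (z * z - 96) / 6 := by ring
      nlinarith [mul_nonneg hz0.le (by nlinarith : (0 : ℝ) ≤ z * z - 96)]
    linarith
  have h16 : 16 ≤ u * u := by
    rw [huu, le_div_iff₀ hz0]
    exact h1
  have hu4 : 4 ≤ u := by nlinarith
  have hup : u ≤ p := by rw [hp]; exact Nat.le_ceil u
  have hpu : (p : ℝ) ≤ u + 1 := by rw [hp]; exact (Nat.ceil_lt_add_one hu0).le
  have hpu' : (p : ℝ) ≤ 5 / 4 * u := by linarith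
  refine ⟨hu4, ?_, hup, hpu', ?_⟩
  · rw [huu]
    field_simp
  · have hp0 : (0 : ℝ) < p := by linarith
    have hlog : Real.log (2 * (C * p)) ≤ 5 / 8 * z := by
      have h5 : (2 : ℝ) * (C * p) ≤ (4 * C) * u := by nlinarith
      have h6 : Real.log (2 * (C * p)) ≤ Real.log ((4 * C) * u) :=
        Real.log_le_log (by positivity) h5
      have h6' : Real.log ((4 * C) * u) = Real.log (4 * C) + Real.log u :=
        Real.log_mul (by positivity) (by positivity)
      rw [h6'] at h6
      have h7 : Real.log u ≤ z / 2 := by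
        have h8 : u * u ≤ Real.exp z := by
          rw [huu, ← hL]
          rw [div_le_iff₀ hz0]
          nlinarith
        have h9 : Real.log (u * u) ≤ z := by
          have := Real.log_le_log (by positivity) h8
          rwa [Real.log_exp] at this
        rw [Real.log_mul (by positivity) (by positivity)] at h9
        linarith
      linarith
    have hlogC : Real.log C ≤ z / 8 := by
      have : Real.log C ≤ Real.log (4 * C) := Real.log_le_log (by positivity) (by linarith)
      linarith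
    have h10 : (p : ℝ) * Real.log (2 * (C * p)) ≤ (5 / 4 * u) * (5 / 8 * z) := by
      have h11 : 0 ≤ Real.log (2 * (C * p)) := Real.log_nonneg (by nlinarith)
      exact mul_le_mul hpu' hlog h11 (by positivity)
    nlinarith [mul_nonneg hu0 hz0.le]

/-- the loss of density over all levels is small -/
lemma density (C p l b : ℕ) (c : ℝ) (hC : (16 : ℝ) ≤ C) (hp : 4 ≤ p) (hl : p = l + 2)
    (hb : C * p = b + 2) (hCc : 8 ≤ C * (1 - c)) :
    c ≤ ((C : ℝ) / (C + 1)) * ((b : ℝ) / (b + 2)) ^ (l + 1) := by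
  have hC0 : (0 : ℝ) < C := by linarith
  have hp4 : (4 : ℝ) ≤ p := by exact_mod_cast hp
  have hp0 : (0 : ℝ) < p := by linarith
  have hCp : (64 : ℝ) ≤ C * p := by
    calc (64 : ℝ) = 16 * 4 := by norm_num
      _ ≤ C * p := mul_le_mul hC hp4 (by norm_num) hC0.le
  have hCp0 : (0 : ℝ) < C * p := by linarith
  have hbr : (b : ℝ) + 2 = C * p := by exact_mod_cast hb.symm
  have h3 : (b : ℝ) / (b + 2) = 1 + (-(2 / (C * p))) := by
    have : (b : ℝ) = C * p - 2 := by linarith
    rw [hbr, this]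
    field_simp
    ring
  have h4 : 2 / ((C : ℝ) * p) ≤ 2 := by
    rw [div_le_iff₀ hCp0]
    linarith
  have h5 := one_add_mul_le_pow (a := -(2 / ((C : ℝ) * p))) (by linarith) (l + 1)
  rw [← h3] at h5
  have h6 : ((l + 1 : ℕ) : ℝ) * (2 / (C * p)) ≤ 2 / C := by
    have h7 : ((l + 1 : ℕ) : ℝ) ≤ p := by
      rw [hl]
      push_cast
      linarith
    calc ((l + 1 : ℕ) : ℝ) * (2 / (C * p)) ≤ p * (2 / (C * p)) :=
          mul_le_mul_of_nonneg_right h7 (by positivity)
      _ = 2 / C := by field_simp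
  have h8 : 1 - 2 / (C : ℝ) ≤ ((b : ℝ) / (b + 2)) ^ (l + 1) := by
    refine le_trans ?_ h5
    linarith
  have h9 : 1 - 1 / (C : ℝ) ≤ (C : ℝ) / (C + 1) := by
    rw [le_div_iff₀ (by positivity)]
    have : (1 - 1 / (C : ℝ)) * (C + 1) = C - 1 / C := by
      field_simp
      ring
    rw [this]
    have : 0 < 1 / (C : ℝ) := by positivity
    linarith
  have h10 : 1 / (C : ℝ) ≤ (1 - c) / 8 := by
    rw [div_le_div_iff₀ hC0 (by norm_num)]
    linarith
  have h11 : 0 ≤ 1 - 2 / (C : ℝ) := by
    have : 2 / (C : ℝ) ≤ 1 := by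
      rw [div_le_iff₀ hC0]
      linarith
    linarith
  have h12 : (1 - 1 / (C : ℝ)) * (1 - 2 / C) ≤
      ((C : ℝ) / (C + 1)) * ((b : ℝ) / (b + 2)) ^ (l + 1) :=
    mul_le_mul h9 h8 h11 (by positivity)
  refine le_trans ?_ h12
  have h13 : 2 / (C : ℝ) = 2 * (1 / C) := by ring
  rw [h13]
  have h14 : 0 < 1 / (C : ℝ) := by positivity
  have h15 : (1 - 1 / (C : ℝ)) * (1 - 2 * (1 / C)) = 1 - 3 * (1 / C) + 2 * ((1 / C) * (1 / C)) := by
    ring
  rw [h15]
  have h16 : 0 < (1 / (C : ℝ)) * (1 / C) := by positivity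
  have h17 : 0 ≤ 1 - c := by
    by_contra hcon
    push Not at hcon
    nlinarith
  linarith

open Ndcfe74d8 in
/-- For every `c < 1` and all large `n` some graph on `n` vertices has all maximal cliques of size at least `c * n`
although every set meeting all its maximal cliques (of size at least two) has more than
`n * exp (-2 * √(log n * log log n)) = n ^ (1 - o(1))` vertices. -/
theorem result (c : ℝ) (hc : c < 1) : ∀ᶠ n : ℕ in Filter.atTop, ∃ G : SimpleGraph (Fin n),
    AllMaximalCliquesAtLeast G (c * (n : ℝ)) ∧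
    (n : ℝ) * Real.exp (-2 * √(Real.log n * Real.log (Real.log n))) <
      (G.cliqueTransversalNumber : ℝ) := by
  set c' := max c (1 / 2) with hc'
  have hc1 : c' < 1 := max_lt hc (by norm_num)
  have hc2 : 1 / 2 ≤ c' := le_max_right _ _
  obtain ⟨C, hCc⟩ := exists_nat_ge (8 / (1 - c'))
  have h1c : 0 < 1 - c' := by linarith
  have hCc' : 8 ≤ C * (1 - c') := by rwa [div_le_iff₀ h1c] at hCc
  have hC16 : (16 : ℝ) ≤ C := by
    by_contra hcon
    push Not at hcon
    nlinarith
  have hC4 : 4 ≤ C := by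
    have : (4 : ℝ) ≤ C := by linarith
    exact_mod_cast this
  have hlim : Filter.Tendsto (fun n : ℕ => Real.log (Real.log (n : ℝ))) Filter.atTop Filter.atTop :=
    Real.tendsto_log_atTop.comp (Real.tendsto_log_atTop.comp tendsto_natCast_atTop_atTop)
  filter_upwards [hlim.eventually_ge_atTop 10, hlim.eventually_ge_atTop (8 * Real.log (4 * C)),
    Filter.eventually_ge_atTop 4] with n hz hz2 hn4
  have hn4' : (4 : ℝ) ≤ n := by exact_mod_cast hn4
  have hn0 : (0 : ℝ) < n := by linarith
  set L := Real.log n with hLdef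
  set z := Real.log L with hzdef
  have hL1 : 0 < L := by
    rw [hLdef]
    exact Real.log_pos (by linarith)
  have hLz : L = Real.exp z := by rw [hzdef, Real.exp_log hL1]
  have hnL : (n : ℝ) = Real.exp L := by rw [hLdef, Real.exp_log hn0]
  set u := √(L / z) with hu
  set p := ⌈u⌉₊ with hp
  obtain ⟨hu4, huL, hup, hpu, hkey⟩ := numeric C hC4 z L u hz hz2 hLz hu p hp
  have hz0 : 0 < z := by linarith
  have hp4 : (4 : ℝ) ≤ p := hu4.trans hup
  have hp4' : 4 ≤ p := by exact_mod_cast hp4
  obtain ⟨l, hl⟩ : ∃ l, p = l + 2 := ⟨p - 2, by omega⟩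
  obtain ⟨b, hb⟩ : ∃ b, C * p = b + 2 := ⟨C * p - 2, by
    have : 2 ≤ C * p := by nlinarith
    omega⟩
  have hb1 : 1 ≤ b := by
    have : 16 ≤ C * p := by nlinarith
    omega
  set y := Real.exp ((L - Real.log C) / p) with hy
  have hy0 : 0 < y := Real.exp_pos _
  have hC0 : (0 : ℝ) < C := by linarith
  have hp0 : (0 : ℝ) < p := by linarith
  have hyp : y ^ p = n / C := by
    rw [hy, ← Real.exp_nat_mul, mul_div_cancel₀ _ hp0.ne', Real.exp_sub, Real.exp_log hC0, hnL]
  have hCp : (64 : ℝ) ≤ C * p := by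
    calc (64 : ℝ) = 16 * 4 := by norm_num
      _ ≤ C * p := mul_le_mul hC16 hp4 (by norm_num) hC0.le
  have huz0 : 0 ≤ u * z := mul_nonneg (by linarith) hz0.le
  have huz : u * z ≤ L := by
    rw [← huL]
    have h3 : 1 * (u * z) ≤ u * (u * z) := mul_le_mul_of_nonneg_right (by linarith) huz0
    linarith
  have hx1 : 1 ≤ y / (C * p) := by
    rw [le_div_iff₀ (by positivity), one_mul]
    have h3 : Real.log (C * p) ≤ Real.log (2 * (C * p)) :=
      Real.log_le_log (by linarith) (by linarith)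
    have h4 : Real.log (C * p) ≤ (L - Real.log C) / p := by
      rw [le_div_iff₀ hp0]
      have h5 := mul_le_mul_of_nonneg_left h3 hp0.le
      linarith
    calc (C : ℝ) * p = Real.exp (Real.log (C * p)) := (Real.exp_log (by positivity)).symm
      _ ≤ y := Real.exp_le_exp.2 h4
  set k := ⌊y / (C * p)⌋₊ with hk
  have hk1 : 1 ≤ k := by
    rw [hk]
    exact Nat.le_floor (by exact_mod_cast hx1)
  have hkx : (k : ℝ) ≤ y / (C * p) := Nat.floor_le (by positivity)
  have hkx2 : y / (C * p) < k + 1 := Nat.lt_floor_add_one _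
  have hk1' : (1 : ℝ) ≤ k := by exact_mod_cast hk1
  have hkhalf : y / (2 * (C * p)) ≤ k := by
    have : y / (2 * (C * p)) = y / (C * p) / 2 := by
      field_simp
    rw [this]
    linarith
  -- the four hypotheses of `finalize`
  have hN : C * ((b + 2) * k) ^ (l + 2) ≤ n := by
    rw [← hb, ← hl]
    have h3 : (C : ℝ) * p * k ≤ y := by
      have := mul_le_mul_of_nonneg_left hkx (by positivity : (0 : ℝ) ≤ C * p)
      rwa [mul_div_cancel₀ _ (by positivity : (C : ℝ) * p ≠ 0)] at this
    have h4 : ((C : ℝ) * p * k) ^ p ≤ n / C := by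
      rw [← hyp]
      exact pow_le_pow_left₀ (by positivity) h3 p
    have h5 : (C : ℝ) * ((C : ℝ) * p * k) ^ p ≤ n := by
      have := mul_le_mul_of_nonneg_left h4 hC0.le
      rwa [mul_div_cancel₀ _ hC0.ne'] at this
    exact_mod_cast h5
  have hcc : c' ≤ ((C : ℝ) / (C + 1)) * ((b : ℝ) / (b + 2)) ^ (l + 1) :=
    density C p l b c' hC16 hp4' hl hb hCc'
  have h2n : 2 ≤ c' * n := by nlinarith
  obtain ⟨G, hG1, hG2⟩ := finalize b k l n C hb1 hk1 hN (by omega) c' hcc h2n
  refine ⟨G, ?_, ?_⟩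
  · intro t ht
    refine le_trans ?_ (hG1 t ht)
    exact mul_le_mul_of_nonneg_right (le_max_left _ _) hn0.le
  · have hsq : √(L * z) = u * z := by
      rw [hu]
      have : L * z = (L / z) * (z * z) := by
        field_simp
      rw [this, Real.sqrt_mul (by positivity), Real.sqrt_mul_self hz0.le]
    rw [hsq]
    have h3 : ((k ^ (l + 1) : ℕ) : ℝ) < (G.cliqueTransversalNumber : ℝ) := by exact_mod_cast hG2
    refine lt_of_le_of_lt ?_ h3
    push_cast
    have hl1 : ((l + 1 : ℕ) : ℝ) = p - 1 := by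
      rw [hl]
      push_cast
      ring
    calc (n : ℝ) * Real.exp (-2 * (u * z)) = Real.exp (L + -2 * (u * z)) := by
          rw [Real.exp_add, ← hnL]
      _ ≤ Real.exp (((l + 1 : ℕ) : ℝ) * ((L - Real.log C) / p - Real.log (2 * (C * p)))) := by
          apply Real.exp_le_exp.2
          rw [hl1]
          have h4 : (p - 1) * ((L - Real.log C) / p - Real.log (2 * (C * p))) =
              (L - Real.log C) - (L - Real.log C) / p - (p - 1) * Real.log (2 * (C * p)) := by
            have h5 : (p : ℝ) * ((L - Real.log C) / p) = L - Real.log C :=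
              mul_div_cancel₀ _ hp0.ne'
            linear_combination h5
          rw [h4]
          have h5 : (L - Real.log C) / p ≤ u * z := by
            rw [div_le_iff₀ hp0]
            have h6 : 0 ≤ Real.log C := Real.log_nonneg (by linarith)
            have h7 : L ≤ u * z * p := by
              rw [← huL]
              have h8 := mul_le_mul_of_nonneg_left hup huz0
              linarith
            linarith
          have h8 : 0 ≤ Real.log (2 * (C * p)) := Real.log_nonneg (by linarith)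
          linarith
      _ = (y / (2 * (C * p))) ^ (l + 1) := by
          rw [Real.exp_nat_mul, Real.exp_sub, Real.exp_log (by positivity)]
      _ ≤ (k : ℝ) ^ (l + 1) := pow_le_pow_left₀ (by positivity) hkhalf _

end Pool.Agent.Results.MP_0b8466_co.NearLinear
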